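import Pool.Agent.H43.EraJ

open MeasureTheory Set

namespace Pool.Agent.Results.MP_7df46e_an.Comeagre

open Pool.Agent.H43.EraJ

theorem result :
    IsMeagre {x : Icc (0 : ℝ) 1 | (x : ℝ) ∉ E} ∧ ¬ IsMeagre {x : Icc (0 : ℝ) 1 | (x : ℝ) ∈ E} :=
  ⟨joint.1, joint.2.1⟩

end Pool.Agent.Results.MP_7df46e_an.Comeagre
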