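import Pool.Agent.H43.EraJ

open MeasureTheory Set

namespace Pool.Agent.Results.MP_7df46e_an.FullMeasure

open Pool.Agent.H43.EraJ

theorem result : volume (Icc (0 : ℝ) 1 \ E) = 0 ∧ volume E = 1 :=
  joint.2.2

end Pool.Agent.Results.MP_7df46e_an.FullMeasure
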